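import Pool.Agent.Helper87.EX.Defs

/-! Module C of project EX: almost every configuration is generic. -/

set_option autoImplicit false

namespace Pool.Agent.Helper14.EXC

open MeasureTheory Complex
open scoped BigOperators ENNReal
open Pool.Agent.Helper87.EX

/-- a monic cubic polynomial has finitely many real roots -/
theorem cubic_finite (a b c : ℂ) :
    {t : ℝ | (t : ℂ) ^ 3 + a * (t : ℂ) ^ 2 + b * (t : ℂ) + c = 0}.Finite := by
  classical
  set p : Polynomial ℂ := Polynomial.X ^ 3 + Polynomial.C a * Polynomial.X ^ 2 +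
    Polynomial.C b * Polynomial.X + Polynomial.C c with hp
  have hd : p.natDegree = 3 := by
    rw [hp]
    compute_degree!
  have h0 : p ≠ 0 := by
    intro h
    rw [h] at hd
    simp at hd
  refine Set.Finite.subset
    ((p.roots.toFinset.finite_toSet).preimage (Complex.ofReal_injective.injOn)) ?_
  intro t ht
  simp only [Set.mem_preimage, Finset.mem_coe, Multiset.mem_toFinset]
  rw [Polynomial.mem_roots h0]
  simp only [Polynomial.IsRoot, hp, Polynomial.eval_add, Polynomial.eval_pow, Polynomial.eval_X,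
    Polynomial.eval_mul, Polynomial.eval_C]
  exact ht

theorem haarE (n : ℕ) : (volume : Measure (Fin n → Fin 3 → ℂ)).IsAddHaarMeasure := by
  have h : MeasurableAdd (Fin 3 → ℂ) := inferInstance
  exact @Measure.pi.isAddHaarMeasure (Fin n) (fun _ => Fin 3 → ℂ) _ _ _ _ _ _ _ _

theorem haarPE (k n : ℕ) : (volume : Measure (Fin k → E n)).IsAddHaarMeasure := by
  have h0 := haarE n
  exact @Measure.pi.isAddHaarMeasure (Fin k) (fun _ => E n) _ _ _ _ _ _ _ _

theorem continuous_dt {X : Type*} [TopologicalSpace X] {f g h : X → Fin 3 → ℂ}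
    (hf : Continuous f) (hg : Continuous g) (hh : Continuous h) :
    Continuous (fun x => dt (f x) (g x) (h x)) := by
  unfold dt
  fun_prop

theorem ae_dt_ne (k : ℕ) (i j l : Fin k) (hij : i ≠ j) (hil : i ≠ l) (hjl : j ≠ l) :
    ∀ᵐ m : Fin k → E 1 ∂volume, dt (m i 0) (m j 0) (m l 0) ≠ 0 := by
  classical
  have hS : MeasurableSet {m : Fin k → E 1 | dt (m i 0) (m j 0) (m l 0) ≠ 0} := by
    have hc : Continuous (fun m : Fin k → E 1 => dt (m i 0) (m j 0) (m l 0)) :=
      continuous_dt (by fun_prop) (by fun_prop) (by fun_prop)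
    exact (isOpen_ne_fun hc continuous_const).measurableSet
  let v : Fin k → E 1 := fun r _ s =>
    if r = i then (if s = 0 then 1 else 0) else
      if r = j then (if s = 1 then 1 else 0) else
        if r = l then (if s = 2 then 1 else 0) else 0
  let L : ℝ →ₗ[ℝ] (Fin k → E 1) := LinearMap.toSpanSingleton ℝ _ v
  have := haarPE k 1
  refine ae_mem_of_ae_add_linearMap_mem (s := {m : Fin k → E 1 | dt (m i 0) (m j 0) (m l 0) ≠ 0})
    L volume volume hS (fun y => ?_)
  rw [ae_iff]
  refine Set.Finite.measure_zero (Set.Finite.subset (cubic_finite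
    (y i 0 0 + y j 0 1 + y l 0 2)
    (y i 0 0 * y j 0 1 - y i 0 1 * y j 0 0 + y i 0 0 * y l 0 2 - y i 0 2 * y l 0 0 +
      y j 0 1 * y l 0 2 - y j 0 2 * y l 0 1)
    (dt (y i 0) (y j 0) (y l 0))) ?_) volume
  intro t ht
  simp only [Set.mem_ofPred_eq, not_not, L, LinearMap.toSpanSingleton_apply, Pi.add_apply,
    Pi.smul_apply] at ht
  have e1 : ∀ s : Fin 3, v i 0 s = if s = 0 then 1 else 0 := by
    intro s; simp [v]
  have e2 : ∀ s : Fin 3, v j 0 s = if s = 1 then 1 else 0 := by
    intro s; simp [v, hij.symm]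
  have e3 : ∀ s : Fin 3, v l 0 s = if s = 2 then 1 else 0 := by
    intro s; simp [v, hil.symm, hjl.symm]
  simp only [Set.mem_ofPred_eq]
  unfold dt at ht ⊢
  simp only [Pi.add_apply, Pi.smul_apply, e1, e2, e3, Complex.real_smul] at ht
  simp at ht
  linear_combination ht

theorem ae_Gen (k : ℕ) : ∀ᵐ m : Fin k → E 1 ∂volume, Gen (fun i => m i 0) := by
  unfold Gen
  rw [ae_all_iff]
  intro i
  rw [ae_all_iff]
  intro j
  rw [ae_all_iff]
  intro l
  by_cases h1 : i = j
  · exact Filter.Eventually.of_forall (fun m h => absurd h1 h)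
  · by_cases h2 : i = l
    · exact Filter.Eventually.of_forall (fun m _ h => absurd h2 h)
    · by_cases h3 : j = l
      · exact Filter.Eventually.of_forall (fun m _ _ h => absurd h3 h)
      · filter_upwards [ae_dt_ne k i j l h1 h2 h3] with m hm _ _ _
        exact hm

end Pool.Agent.Helper14.EXC
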