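import Pool.Agent.Helper14.EXC.C2
import Pool.Agent.Helper14.EXC.C4

/-! Module C of project EX, first statements. -/

set_option autoImplicit false

namespace Pool.Agent.Helper14.EXC

open MeasureTheory Complex
open scoped BigOperators ENNReal
open Pool.Agent.Helper87.EX

theorem exp_c_int {c : ℝ} (hc : 0 < c) :
    Integrable (fun z : ℂ => Real.exp (-c * Complex.normSq z)) volume := by
  have h := GaussianFourier.integrable_cexp_neg_mul_sq_norm_add (V := ℂ) (b := (c : ℂ))
    (by simpa using hc) 0 0
  refine h.norm.congr (Filter.Eventually.of_forall (fun z => ?_))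
  simp only
  rw [Complex.norm_exp]
  congr 1
  rw [Complex.normSq_eq_norm_sq]
  simp only [inner_zero_left, Complex.ofReal_zero, mul_zero, add_zero]
  rw [← Complex.ofReal_pow, ← Complex.ofReal_neg, ← Complex.ofReal_mul, Complex.ofReal_re]

theorem exp_q_int {n : ℕ} {c : ℝ} (hc : 0 < c) :
    Integrable (fun m : E n => Real.exp (-c * q m)) volume := by
  have h1 : Integrable (fun v : Fin 3 → ℂ => ∏ i, Real.exp (-c * Complex.normSq (v i))) volume :=
    Integrable.fintype_prod (fun _ => exp_c_int hc)
  have h2 : Integrable (fun m : Fin n → Fin 3 → ℂ =>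
      ∏ j, (fun v : Fin 3 → ℂ => ∏ i, Real.exp (-c * Complex.normSq (v i))) (m j)) volume :=
    Integrable.fintype_prod (fun _ => h1)
  refine h2.congr (Filter.Eventually.of_forall (fun m => ?_))
  simp only
  unfold q
  simp_rw [Finset.mul_sum, Real.exp_sum]

theorem q_int_one (n : ℕ) : Integrable (fun m : E n => Real.exp (-q m)) volume := by
  have h := exp_q_int (n := n) one_pos
  simpa using h

theorem Z_pos (n : ℕ) : 0 < Z n := by
  have h := haarE n
  unfold Z
  exact integral_exp_pos (q_int_one n)

theorem gam_prob (n : ℕ) : IsProbabilityMeasure (gam n) := by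
  constructor
  unfold gam
  rw [withDensity_apply _ MeasurableSet.univ, Measure.restrict_univ]
  have hi : Integrable (fun m : E n => rho m) volume := by
    unfold rho
    exact (q_int_one n).div_const _
  rw [← ofReal_integral_eq_lintegral_ofReal hi (Filter.Eventually.of_forall (fun m => by
    unfold rho
    exact div_nonneg (Real.exp_pos _).le (Z_pos n).le))]
  have h1 : ∫ m : E n, rho m = 1 := by
    unfold rho
    rw [integral_div]
    exact div_self (Z_pos n).ne'
  rw [h1, ENNReal.ofReal_one]

theorem mulVec_mp (g : G3) :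
    MeasurePreserving (fun v : Fin 3 → ℂ => (g : Matrix (Fin 3) (Fin 3) ℂ).mulVec v)
      volume volume := by
  set f : (Fin 3 → ℂ) →ₗ[ℝ] (Fin 3 → ℂ) :=
    (Matrix.toLin' (g : Matrix (Fin 3) (Fin 3) ℂ)).restrictScalars ℝ with hf
  have hdet : LinearMap.det f = 1 := by
    rw [hf, LinearMap.det_restrictScalars, LinearMap.det_toLin', g.det_coe, map_one]
  refine ⟨?_, ?_⟩
  · exact (Continuous.matrix_mulVec continuous_const continuous_id).measurable
  · have h := Measure.map_linearMap_addHaar_eq_smul_addHaar (E := Fin 3 → ℂ)
      (μ := volume) (f := f) (by rw [hdet]; exact one_ne_zero)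
    rw [hdet] at h
    simp only [inv_one, abs_one, ENNReal.ofReal_one, one_smul] at h
    exact h

/-- left multiplication by an element of `SL_3` preserves the Lebesgue measure -/
theorem act_mp {n : ℕ} (g : G3) :
    MeasurePreserving (fun m : E n => act (g : Matrix (Fin 3) (Fin 3) ℂ) m) volume volume :=
  volume_preserving_pi (fun _ => mulVec_mp g)

end Pool.Agent.Helper14.EXC
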