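import Pool.Agent.Helper87.EX.Defs

/-! Module C of project EX, second half. -/

set_option autoImplicit false

namespace Pool.Agent.Helper14.EXC

open MeasureTheory Complex
open scoped BigOperators ENNReal
open Pool.Agent.Helper87.EX

theorem lintegral_fin_prod {X : Type*} [MeasurableSpace X] :
    ∀ (k : ℕ) (ν : Fin k → Measure X) [∀ i, SigmaFinite (ν i)] (f : Fin k → X → ℝ≥0∞)
      (_ : ∀ i, Measurable (f i)),
      ∫⁻ x : Fin k → X, ∏ i, f i (x i) ∂(Measure.pi ν) = ∏ i, ∫⁻ x, f i x ∂(ν i) := by
  intro k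
  induction k with
  | zero =>
    intro ν _ f _
    simp
  | succ k ih =>
    intro ν _ f hf
    have h1 := (measurePreserving_piFinSuccAbove ν 0).symm
    rw [← h1.lintegral_comp_emb (MeasurableEquiv.measurableEmbedding _)]
    have h2 : ∀ a : X × (Fin k → X),
        ∏ i, f i ((MeasurableEquiv.piFinSuccAbove (fun _ : Fin (k + 1) => X) 0).symm a i) =
          f 0 a.1 * ∏ i : Fin k, f i.succ (a.2 i) := by
      intro a
      rw [Fin.prod_univ_succ]
      rfl
    simp_rw [h2]
    have h3 : Measurable (fun z : Fin k → X => ∏ i : Fin k, f i.succ (z i)) :=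
      Finset.measurable_fun_prod _ (fun i _ => (hf i.succ).comp (measurable_pi_apply i))
    have h4 := lintegral_prod_mul (μ := ν 0) (ν := Measure.pi (fun j : Fin k => ν (Fin.succAbove 0 j)))
      (hf 0).aemeasurable h3.aemeasurable
    rw [h4, Fin.prod_univ_succ]
    congr 1
    exact ih (fun j => ν j.succ) (fun j => f j.succ) (fun j => hf j.succ)

theorem pi_withDensity {X : Type*} [MeasurableSpace X] (k : ℕ) (ν : Measure X) [SigmaFinite ν]
    (f : X → ℝ≥0∞) (hf : Measurable f) [SigmaFinite (ν.withDensity f)] :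
    Measure.pi (fun _ : Fin k => ν.withDensity f) =
      (Measure.pi (fun _ : Fin k => ν)).withDensity (fun x => ∏ i, f (x i)) := by
  refine Measure.pi_eq (fun s hs => ?_)
  rw [withDensity_apply _ (MeasurableSet.univ_pi hs), Measure.restrict_pi_pi,
    lintegral_fin_prod k (fun i => ν.restrict (s i)) (fun _ => f) (fun _ => hf)]
  refine Finset.prod_congr rfl (fun i _ => ?_)
  rw [withDensity_apply _ (hs i)]

theorem continuous_q (n : ℕ) : Continuous (fun m : E n => q m) := by
  unfold q
  fun_prop

theorem continuous_rho (n : ℕ) : Continuous (fun m : E n => rho m) := by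
  unfold rho
  exact (Real.continuous_exp.comp (continuous_q n).neg).div_const _

theorem measurable_orho (n : ℕ) : Measurable (fun m : E n => ENNReal.ofReal (rho m)) :=
  (continuous_rho n).measurable.ennreal_ofReal

theorem continuous_act (n : ℕ) (g : Matrix (Fin 3) (Fin 3) ℂ) :
    Continuous (fun m : E n => act g m) := by
  unfold act
  exact continuous_pi (fun j => Continuous.matrix_mulVec continuous_const (continuous_apply j))

theorem act_mul {n : ℕ} (g h : Matrix (Fin 3) (Fin 3) ℂ) (m : E n) :
    act (g * h) m = act g (act h m) := by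
  unfold act
  funext j
  rw [Matrix.mulVec_mulVec]

theorem act_one {n : ℕ} (m : E n) : act (1 : Matrix (Fin 3) (Fin 3) ℂ) m = m := by
  unfold act
  funext j
  rw [Matrix.one_mulVec]

/-- the action of a group element as a homeomorphism -/
noncomputable def actE (n : ℕ) (g : G3) : E n ≃ᵐ E n :=
  Homeomorph.toMeasurableEquiv
    { toFun := fun m => act (g : Matrix (Fin 3) (Fin 3) ℂ) m
      invFun := fun m => act ((g⁻¹ : G3) : Matrix (Fin 3) (Fin 3) ℂ) m
      left_inv := by
        intro m
        simp only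
        rw [← act_mul, ← Matrix.SpecialLinearGroup.coe_mul, inv_mul_cancel,
          Matrix.SpecialLinearGroup.coe_one, act_one]
      right_inv := by
        intro m
        simp only
        rw [← act_mul, ← Matrix.SpecialLinearGroup.coe_mul, mul_inv_cancel,
          Matrix.SpecialLinearGroup.coe_one, act_one]
      continuous_toFun := continuous_act n _
      continuous_invFun := continuous_act n _ }

theorem actE_apply (n : ℕ) (g : G3) (m : E n) :
    actE n g m = act (g : Matrix (Fin 3) (Fin 3) ℂ) m := rfl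

/-- the action on tuples -/
noncomputable def actP (k n : ℕ) (x : Fin k → G3) : (Fin k → E n) ≃ᵐ (Fin k → E n) :=
  MeasurableEquiv.piCongrRight (fun i => actE n (x i))

theorem actP_apply (k n : ℕ) (x : Fin k → G3) (m : Fin k → E n) :
    actP k n x m = fun i => act (x i : Matrix (Fin 3) (Fin 3) ℂ) (m i) := rfl

/-- squared norms are preserved by unitary matrices -/
theorem q_act {n : ℕ} (u : G3) (hu : IsU u) (m : E n) :
    q (act (u : Matrix (Fin 3) (Fin 3) ℂ) m) = q m := by
  unfold q
  refine Finset.sum_congr rfl (fun j _ => ?_)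
  have h1 : (u : Matrix (Fin 3) (Fin 3) ℂ).conjTranspose * (u : Matrix (Fin 3) (Fin 3) ℂ) = 1 :=
    mul_eq_one_comm.mp hu
  have h2 : ∀ v : Fin 3 → ℂ, ((∑ i, Complex.normSq (v i) : ℝ) : ℂ) = star v ⬝ᵥ v := by
    intro v
    simp only [dotProduct, Pi.star_apply, Complex.ofReal_sum]
    refine Finset.sum_congr rfl (fun i _ => ?_)
    rw [Complex.normSq_eq_conj_mul_self]
    rfl
  have h3 : star ((u : Matrix (Fin 3) (Fin 3) ℂ).mulVec (m j)) ⬝ᵥ
      ((u : Matrix (Fin 3) (Fin 3) ℂ).mulVec (m j)) = star (m j) ⬝ᵥ (m j) := by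
    rw [Matrix.star_mulVec, Matrix.dotProduct_mulVec, Matrix.vecMul_vecMul, h1, Matrix.vecMul_one]
  have h4 := h2 (m j)
  rw [← h3, ← h2] at h4
  have h5 : (∑ i, Complex.normSq ((u : Matrix (Fin 3) (Fin 3) ℂ).mulVec (m j) i) : ℝ) =
      ∑ i, Complex.normSq (m j i) := by
    exact_mod_cast h4.symm
  exact h5

end Pool.Agent.Helper14.EXC
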