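import Pool.Agent.Helper14.EXC.C1

/-! Module C of project EX: all statements. -/

set_option autoImplicit false

namespace Pool.Agent.Helper14.EXC

open MeasureTheory Complex
open scoped BigOperators ENNReal
open Pool.Agent.Helper87.EX

theorem gamP_ac (k n : ℕ) :
    Measure.pi (fun _ : Fin k => gam n) ≪ (volume : Measure (Fin k → E n)) := by
  have := gam_prob n
  have : SigmaFinite ((volume : Measure (E n)).withDensity
      (fun m => ENNReal.ofReal (rho m))) := by
    have : IsProbabilityMeasure (gam n) := gam_prob n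
    unfold gam at this
    infer_instance
  unfold gam
  rw [pi_withDensity k (volume : Measure (E n)) _ (measurable_orho n)]
  exact withDensity_absolutelyContinuous _ _

theorem actP_mp (k n : ℕ) (x : Fin k → G3) :
    MeasurePreserving (actP k n x) (volume : Measure (Fin k → E n)) volume :=
  volume_preserving_pi (fun i => act_mp (x i))

theorem gam_act (n : ℕ) (u : G3) (hu : IsU u) :
    MeasurePreserving (actE n u) (gam n) (gam n) := by
  refine ⟨(actE n u).measurable, ?_⟩
  have hv : MeasurePreserving (actE n u) (volume : Measure (E n)) volume := act_mp u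
  ext s hs
  rw [Measure.map_apply (actE n u).measurable hs]
  unfold gam
  rw [withDensity_apply _ ((actE n u).measurable hs), withDensity_apply _ hs,
    ← hv.setLIntegral_comp_preimage hs (measurable_orho n)]
  refine lintegral_congr (fun m => ?_)
  rw [actE_apply]
  unfold rho
  rw [q_act u hu]

theorem gamP_act (k n : ℕ) (u : Fin k → G3) (hu : ∀ i, IsU (u i)) :
    MeasurePreserving (actP k n u) (Measure.pi (fun _ : Fin k => gam n))
      (Measure.pi (fun _ : Fin k => gam n)) := by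
  have := gam_prob n
  exact measurePreserving_pi _ _ (fun i => gam_act n (u i) (hu i))

theorem rho_nonneg {n : ℕ} (m : E n) : 0 ≤ rho m := by
  unfold rho
  exact div_nonneg (Real.exp_pos _).le (Z_pos n).le

theorem gamP_eq (k n : ℕ) :
    Measure.pi (fun _ : Fin k => gam n) = (volume : Measure (Fin k → E n)).withDensity
      (fun x => ∏ i, ENNReal.ofReal (rho (x i))) := by
  have : SigmaFinite ((volume : Measure (E n)).withDensity
      (fun m => ENNReal.ofReal (rho m))) := by
    have : IsProbabilityMeasure (gam n) := gam_prob n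
    unfold gam at this
    infer_instance
  unfold gam
  rw [pi_withDensity k (volume : Measure (E n)) _ (measurable_orho n)]
  rfl

theorem measurable_prod_orho (k n : ℕ) :
    Measurable (fun x : Fin k → E n => ∏ i, ENNReal.ofReal (rho (x i))) :=
  Finset.measurable_fun_prod _ (fun i _ => (measurable_orho n).comp (measurable_pi_apply i))

theorem prod_orho_toReal (k n : ℕ) (x : Fin k → E n) :
    (∏ i, ENNReal.ofReal (rho (x i))).toReal = ∏ i, rho (x i) := by
  rw [ENNReal.toReal_prod]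
  exact Finset.prod_congr rfl (fun i _ => ENNReal.toReal_ofReal (rho_nonneg _))

theorem prod_orho_lt (k n : ℕ) (x : Fin k → E n) :
    (∏ i, ENNReal.ofReal (rho (x i))) < ∞ :=
  ENNReal.prod_lt_top (fun _ _ => ENNReal.ofReal_lt_top)

theorem integral_gamP (k n : ℕ) (f : (Fin k → E n) → ℝ) :
    ∫ m, f m ∂(Measure.pi (fun _ : Fin k => gam n)) = ∫ m : Fin k → E n, f m * ∏ i, rho (m i) := by
  rw [gamP_eq, integral_withDensity_eq_integral_toReal_smul (measurable_prod_orho k n)
    (Filter.Eventually.of_forall (prod_orho_lt k n))]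
  refine integral_congr_ae (Filter.Eventually.of_forall (fun m => ?_))
  simp only [prod_orho_toReal, smul_eq_mul]
  ring

theorem integrable_gamP (k n : ℕ) (f : (Fin k → E n) → ℝ) :
    Integrable f (Measure.pi (fun _ : Fin k => gam n)) ↔
      Integrable (fun m : Fin k → E n => f m * ∏ i, rho (m i)) volume := by
  rw [gamP_eq, integrable_withDensity_iff (measurable_prod_orho k n)
    (Filter.Eventually.of_forall (prod_orho_lt k n))]
  simp only [prod_orho_toReal]

theorem actP_inv_apply (k n : ℕ) (x : Fin k → G3) (m : Fin k → E n) :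
    actP k n x (actP k n (fun i => (x i)⁻¹) m) = m := by
  simp only [actP_apply]
  funext i
  rw [← act_mul, ← Matrix.SpecialLinearGroup.coe_mul, mul_inv_cancel,
    Matrix.SpecialLinearGroup.coe_one, act_one]

/-- `HH` as an integral against the Lebesgue measure -/
theorem HH_cv {k n : ℕ} (F : (Fin k → E n) → ℝ) (x : Fin k → G3) :
    HH F x = ∫ m : Fin k → E n,
      F m * ∏ i, rho (act (((x i)⁻¹ : G3) : Matrix (Fin 3) (Fin 3) ℂ) (m i)) := by
  unfold HH
  rw [integral_gamP, ← (actP_mp k n (fun i => (x i)⁻¹)).integral_comp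
    (actP k n (fun i => (x i)⁻¹)).measurableEmbedding]
  refine integral_congr_ae (Filter.Eventually.of_forall (fun m => ?_))
  have h := actP_inv_apply k n x m
  simp only [actP_apply] at h ⊢
  rw [h]

/-- Frobenius norm squared -/
noncomputable def nF (g : Matrix (Fin 3) (Fin 3) ℂ) : ℝ := ∑ i, ∑ j, Complex.normSq (g i j)

theorem nF_nonneg (g : Matrix (Fin 3) (Fin 3) ℂ) : 0 ≤ nF g :=
  Finset.sum_nonneg (fun _ _ => Finset.sum_nonneg (fun _ _ => Complex.normSq_nonneg _))

theorem continuous_nF : Continuous nF := by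
  unfold nF
  fun_prop

theorem q_nonneg {n : ℕ} (m : E n) : 0 ≤ q m :=
  Finset.sum_nonneg (fun _ _ => Finset.sum_nonneg (fun _ _ => Complex.normSq_nonneg _))

theorem q_act_le {n : ℕ} (g : Matrix (Fin 3) (Fin 3) ℂ) (m : E n) : q (act g m) ≤ nF g * q m := by
  unfold q
  rw [Finset.mul_sum]
  refine Finset.sum_le_sum (fun j _ => ?_)
  unfold nF act
  rw [Finset.sum_mul]
  refine Finset.sum_le_sum (fun i _ => ?_)
  have h1 : ‖(g.mulVec (m j)) i‖ ≤ ∑ s, ‖g i s‖ * ‖m j s‖ := by
    unfold Matrix.mulVec dotProduct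
    refine (norm_sum_le _ _).trans (Finset.sum_le_sum (fun s _ => ?_))
    rw [norm_mul]
  have h2 : (∑ s, ‖g i s‖ * ‖m j s‖) ^ 2 ≤ (∑ s, ‖g i s‖ ^ 2) * (∑ s, ‖m j s‖ ^ 2) :=
    Finset.sum_mul_sq_le_sq_mul_sq _ _ _
  have h3 : ‖(g.mulVec (m j)) i‖ ^ 2 ≤ (∑ s, ‖g i s‖ * ‖m j s‖) ^ 2 :=
    pow_le_pow_left₀ (norm_nonneg _) h1 2
  simp only [Complex.normSq_eq_norm_sq]
  exact h3.trans h2

/-- lower bound for the norm of `x⁻¹ m` -/
theorem q_le_inv {n : ℕ} (x : G3) (m : E n) :
    q m ≤ nF (x : Matrix (Fin 3) (Fin 3) ℂ) *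
      q (act ((x⁻¹ : G3) : Matrix (Fin 3) (Fin 3) ℂ) m) := by
  have h : act (x : Matrix (Fin 3) (Fin 3) ℂ) (act ((x⁻¹ : G3) : Matrix (Fin 3) (Fin 3) ℂ) m) = m := by
    rw [← act_mul, ← Matrix.SpecialLinearGroup.coe_mul, mul_inv_cancel,
      Matrix.SpecialLinearGroup.coe_one, act_one]
  calc q m = q (act (x : Matrix (Fin 3) (Fin 3) ℂ)
        (act ((x⁻¹ : G3) : Matrix (Fin 3) (Fin 3) ℂ) m)) := by rw [h]
    _ ≤ _ := q_act_le _ _

theorem rho_act_le {n : ℕ} (x : G3) (m : E n) (N : ℝ) (hN : nF (x : Matrix (Fin 3) (Fin 3) ℂ) ≤ N)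
    (hN0 : 0 < N) :
    rho (act ((x⁻¹ : G3) : Matrix (Fin 3) (Fin 3) ℂ) m) ≤ Real.exp (-N⁻¹ * q m) / Z n := by
  unfold rho
  refine div_le_div_of_nonneg_right (Real.exp_le_exp.mpr ?_) (Z_pos n).le
  have h1 := q_le_inv x m
  have h2 : q m ≤ N * q (act ((x⁻¹ : G3) : Matrix (Fin 3) (Fin 3) ℂ) m) :=
    h1.trans (mul_le_mul_of_nonneg_right hN (q_nonneg _))
  have h3 : N⁻¹ * q m ≤ q (act ((x⁻¹ : G3) : Matrix (Fin 3) (Fin 3) ℂ) m) := by
    rw [inv_mul_le_iff₀ hN0]
    exact h2
  linarith

theorem prod_rho_act_le {k n : ℕ} (x : Fin k → G3) (m : Fin k → E n) (N : ℝ)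
    (hN : ∀ i, nF (x i : Matrix (Fin 3) (Fin 3) ℂ) ≤ N) (hN0 : 0 < N) :
    ∏ i, rho (act (((x i)⁻¹ : G3) : Matrix (Fin 3) (Fin 3) ℂ) (m i)) ≤
      ((Z n)⁻¹) ^ k * Real.exp (-N⁻¹ * ∑ i, q (m i)) := by
  calc ∏ i, rho (act (((x i)⁻¹ : G3) : Matrix (Fin 3) (Fin 3) ℂ) (m i))
      ≤ ∏ i, (Real.exp (-N⁻¹ * q (m i)) / Z n) :=
        Finset.prod_le_prod (fun i _ => rho_nonneg _) (fun i _ => rho_act_le (x i) (m i) N (hN i) hN0)
    _ = ((Z n)⁻¹) ^ k * Real.exp (-N⁻¹ * ∑ i, q (m i)) := by
        simp only [div_eq_mul_inv]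
        rw [Finset.prod_mul_distrib, ← Real.exp_sum, ← Finset.mul_sum]
        simp [mul_comm]

theorem gi_aesm {k n : ℕ} {F : (Fin k → E n) → ℝ} (hG : GI F) :
    AEStronglyMeasurable F (volume : Measure (Fin k → E n)) := by
  have h1 := (hG 1 one_pos).aestronglyMeasurable
  have hc : Continuous (fun m : Fin k → E n => Real.exp (1 * ∑ i, q (m i))) := by
    refine Real.continuous_exp.comp (continuous_const.mul ?_)
    exact continuous_finsetSum _ (fun i _ => (continuous_q n).comp (continuous_apply i))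
  have h2 := h1.mul hc.aestronglyMeasurable
  refine h2.congr (Filter.Eventually.of_forall (fun m => ?_))
  simp only [Pi.mul_apply]
  rw [mul_assoc, ← Real.exp_add]
  simp

theorem continuous_prod_rho_act {k n : ℕ} (x : Fin k → G3) :
    Continuous (fun m : Fin k → E n =>
      ∏ i, rho (act (((x i)⁻¹ : G3) : Matrix (Fin 3) (Fin 3) ℂ) (m i))) :=
  continuous_finsetProd _ (fun i _ =>
    (continuous_rho n).comp ((continuous_act n _).comp (continuous_apply i)))

theorem integrable_kernel {k n : ℕ} {F : (Fin k → E n) → ℝ} (hG : GI F) (x : Fin k → G3) :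
    Integrable (fun m : Fin k → E n =>
      F m * ∏ i, rho (act (((x i)⁻¹ : G3) : Matrix (Fin 3) (Fin 3) ℂ) (m i))) volume := by
  set N : ℝ := 1 + ∑ i, nF (x i : Matrix (Fin 3) (Fin 3) ℂ) with hNd
  have hN : ∀ i, nF (x i : Matrix (Fin 3) (Fin 3) ℂ) ≤ N := by
    intro i
    have := Finset.single_le_sum (f := fun i => nF (x i : Matrix (Fin 3) (Fin 3) ℂ))
      (fun j _ => nF_nonneg _) (Finset.mem_univ i)
    rw [hNd]
    linarith
  have hN0 : 0 < N := by
    have := Finset.sum_nonneg (s := Finset.univ) (f := fun i => nF (x i : Matrix (Fin 3) (Fin 3) ℂ))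
      (fun j _ => nF_nonneg _)
    rw [hNd]
    linarith
  refine Integrable.mono' (((hG N⁻¹ (inv_pos.mpr hN0)).norm.const_mul (((Z n)⁻¹) ^ k)))
    ((gi_aesm hG).mul (continuous_prod_rho_act x).aestronglyMeasurable)
    (Filter.Eventually.of_forall (fun m => ?_))
  have h1 := prod_rho_act_le x m N hN hN0
  have h0 : 0 ≤ ∏ i, rho (act (((x i)⁻¹ : G3) : Matrix (Fin 3) (Fin 3) ℂ) (m i)) :=
    Finset.prod_nonneg (fun i _ => rho_nonneg _)
  rw [norm_mul, norm_mul, Real.norm_eq_abs (∏ i, _), abs_of_nonneg h0,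
    Real.norm_eq_abs (Real.exp _), abs_of_pos (Real.exp_pos _)]
  calc ‖F m‖ * ∏ i, rho (act (((x i)⁻¹ : G3) : Matrix (Fin 3) (Fin 3) ℂ) (m i))
      ≤ ‖F m‖ * (((Z n)⁻¹) ^ k * Real.exp (-N⁻¹ * ∑ i, q (m i))) :=
        mul_le_mul_of_nonneg_left h1 (norm_nonneg _)
    _ = _ := by ring

theorem HH_int {k n : ℕ} {F : (Fin k → E n) → ℝ} (hG : GI F) (x : Fin k → G3) :
    Integrable (fun m : Fin k → E n => F (fun i => act (x i : Matrix (Fin 3) (Fin 3) ℂ) (m i)))
      (Measure.pi (fun _ : Fin k => gam n)) := by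
  rw [integrable_gamP, ← (actP_mp k n (fun i => (x i)⁻¹)).integrable_comp_emb
    (actP k n (fun i => (x i)⁻¹)).measurableEmbedding]
  refine (integrable_kernel hG x).congr (Filter.Eventually.of_forall (fun m => ?_))
  have h := actP_inv_apply k n x m
  simp only [actP_apply] at h
  simp only [Function.comp, actP_apply]
  rw [h]

theorem fct_mat : FirstCountableTopology (Matrix (Fin 3) (Fin 3) ℂ) :=
  inferInstanceAs (FirstCountableTopology (Fin 3 → Fin 3 → ℂ))

theorem fct_G3 : FirstCountableTopology G3 := by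
  have h := fct_mat
  exact Topology.IsInducing.firstCountableTopology (f := fun g : G3 =>
    (g : Matrix (Fin 3) (Fin 3) ℂ)) Topology.IsInducing.subtypeVal

theorem HH_cont {k n : ℕ} {F : (Fin k → E n) → ℝ} (hG : GI F) : Continuous (HH F) := by
  have hfun : HH F = fun x : Fin k → G3 => ∫ m : Fin k → E n,
      F m * ∏ i, rho (act (((x i)⁻¹ : G3) : Matrix (Fin 3) (Fin 3) ℂ) (m i)) := by
    funext x
    exact HH_cv F x
  rw [hfun, continuous_iff_continuousAt]
  intro x0
  have hfc := fct_G3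
  set N : ℝ := 1 + ∑ i, nF (x0 i : Matrix (Fin 3) (Fin 3) ℂ) with hNd
  have hN0 : 0 < N := by
    have := Finset.sum_nonneg (s := Finset.univ) (f := fun i => nF (x0 i : Matrix (Fin 3) (Fin 3) ℂ))
      (fun j _ => nF_nonneg _)
    rw [hNd]
    linarith
  have hnb : ∀ᶠ x : Fin k → G3 in nhds x0, ∀ i, nF (x i : Matrix (Fin 3) (Fin 3) ℂ) ≤ N := by
    rw [Filter.eventually_all]
    intro i
    have hc : Continuous (fun x : Fin k → G3 => nF (x i : Matrix (Fin 3) (Fin 3) ℂ)) :=
      continuous_nF.comp (Continuous.subtype_val (continuous_apply i))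
    have hlt : nF (x0 i : Matrix (Fin 3) (Fin 3) ℂ) < N := by
      have := Finset.single_le_sum (f := fun i => nF (x0 i : Matrix (Fin 3) (Fin 3) ℂ))
        (fun j _ => nF_nonneg _) (Finset.mem_univ i)
      rw [hNd]
      linarith
    exact (hc.continuousAt.eventually_lt continuousAt_const hlt).mono (fun _ h => h.le)
  refine continuousAt_of_dominated (bound := fun m : Fin k → E n =>
    (((Z n)⁻¹) ^ k) * ‖F m * Real.exp (-N⁻¹ * ∑ i, q (m i))‖) ?_ ?_ ?_ ?_
  · exact Filter.Eventually.of_forall (fun x =>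
      (gi_aesm hG).mul (continuous_prod_rho_act x).aestronglyMeasurable)
  · filter_upwards [hnb] with x hx
    refine Filter.Eventually.of_forall (fun m => ?_)
    have h1 := prod_rho_act_le x m N hx hN0
    have h0 : 0 ≤ ∏ i, rho (act (((x i)⁻¹ : G3) : Matrix (Fin 3) (Fin 3) ℂ) (m i)) :=
      Finset.prod_nonneg (fun i _ => rho_nonneg _)
    rw [norm_mul, norm_mul, Real.norm_eq_abs (∏ i, _), abs_of_nonneg h0,
      Real.norm_eq_abs (Real.exp _), abs_of_pos (Real.exp_pos _)]
    calc ‖F m‖ * ∏ i, rho (act (((x i)⁻¹ : G3) : Matrix (Fin 3) (Fin 3) ℂ) (m i))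
        ≤ ‖F m‖ * (((Z n)⁻¹) ^ k * Real.exp (-N⁻¹ * ∑ i, q (m i))) :=
          mul_le_mul_of_nonneg_left h1 (norm_nonneg _)
      _ = _ := by ring
  · exact (hG N⁻¹ (inv_pos.mpr hN0)).norm.const_mul _
  · refine Filter.Eventually.of_forall (fun m => ?_)
    refine ContinuousAt.mul continuousAt_const ?_
    refine Continuous.continuousAt (continuous_finsetProd _ (fun i _ => ?_))
    refine (continuous_rho n).comp ?_
    unfold act
    refine continuous_pi (fun j => Continuous.matrix_mulVec ?_ continuous_const)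
    exact Continuous.subtype_val ((continuous_apply i).inv)

theorem HH_left {k n : ℕ} {F : (Fin k → E n) → ℝ} (hF : Inv F) : LInv (HH F) := by
  intro g x
  unfold HH
  refine integral_congr_ae (Filter.Eventually.of_forall (fun m => ?_))
  simp only
  rw [← hF g (fun i => act (x i : Matrix (Fin 3) (Fin 3) ℂ) (m i))]
  congr 1
  funext i
  rw [← act_mul, ← Matrix.SpecialLinearGroup.coe_mul]

theorem HH_right {k n : ℕ} {F : (Fin k → E n) → ℝ} (x u : Fin k → G3) (hu : ∀ i, IsU (u i)) :
    HH F (fun i => x i * u i) = HH F x := by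
  unfold HH
  rw [← (gamP_act k n u hu).integral_comp (actP k n u).measurableEmbedding
    (fun m => F (fun i => act (x i : Matrix (Fin 3) (Fin 3) ℂ) (m i)))]
  refine integral_congr_ae (Filter.Eventually.of_forall (fun m => ?_))
  simp only [actP_apply]
  congr 1
  funext i
  rw [← act_mul, ← Matrix.SpecialLinearGroup.coe_mul]

theorem HH_congr {k n : ℕ} {F F' : (Fin k → E n) → ℝ} (h : F =ᵐ[volume] F') : HH F = HH F' := by
  funext x
  unfold HH
  refine integral_congr_ae ?_
  have h1 : ∀ᵐ m : Fin k → E n ∂volume, F (actP k n x m) = F' (actP k n x m) :=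
    (actP_mp k n x).quasiMeasurePreserving.ae h
  exact (gamP_ac k n).ae_le h1

theorem HH_le {k n : ℕ} {F : (Fin k → E n) → ℝ} {C : ℝ}
    (h : ∀ᵐ m : Fin k → E n ∂volume, |F m| ≤ C) (x : Fin k → G3) : |HH F x| ≤ C := by
  have := gam_prob n
  have h1 : ∀ᵐ m : Fin k → E n ∂volume, |F (actP k n x m)| ≤ C :=
    (actP_mp k n x).quasiMeasurePreserving.ae h
  have h2 : ∀ᵐ m ∂(Measure.pi (fun _ : Fin k => gam n)), ‖F (actP k n x m)‖ ≤ C :=
    (gamP_ac k n).ae_le h1
  have h3 := norm_integral_le_of_norm_le_const h2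
  rw [Real.norm_eq_abs, probReal_univ, mul_one] at h3
  exact h3

theorem HH_dd {k n : ℕ} {F : (Fin k → E n) → ℝ} (hG : GI F) (x : Fin (k + 1) → G3) :
    dd (HH F) x = HH (dd F) x := by
  have := gam_prob n
  have hmp : ∀ i : Fin (k + 1), MeasurePreserving
      (fun (m : Fin (k + 1) → E n) (j : Fin k) => m (i.succAbove j))
      (Measure.pi (fun _ : Fin (k + 1) => gam n)) (Measure.pi (fun _ : Fin k => gam n)) := by
    intro i
    exact measurePreserving_snd.comp (measurePreserving_piFinSuccAbove (fun _ : Fin (k + 1) => gam n) i)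
  have hint : ∀ i : Fin (k + 1), Integrable (fun m : Fin (k + 1) → E n =>
      (-1 : ℝ) ^ (i : ℕ) * F (fun j => act (x (i.succAbove j) : Matrix (Fin 3) (Fin 3) ℂ)
        (m (i.succAbove j)))) (Measure.pi (fun _ : Fin (k + 1) => gam n)) := by
    intro i
    exact ((hmp i).integrable_comp_of_integrable
      (HH_int hG (fun j => x (i.succAbove j)))).const_mul _
  unfold dd HH
  rw [integral_finsetSum _ (fun i _ => hint i)]
  refine Finset.sum_congr rfl (fun i _ => ?_)
  rw [integral_const_mul]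
  congr 1
  have h1 := HH_int hG (fun j => x (i.succAbove j))
  have h2 := integral_map (hmp i).aemeasurable
    (f := fun m : Fin k → E n => F (fun j => act (x (i.succAbove j) : Matrix (Fin 3) (Fin 3) ℂ) (m j)))
    (by rw [(hmp i).map_eq]; exact h1.aestronglyMeasurable)
  rw [(hmp i).map_eq] at h2
  exact h2

theorem HH_alter {k n : ℕ} {F : (Fin k → E n) → ℝ} (hF : Alter F) : Alter (HH F) := by
  have := gam_prob n
  intro i j x hij
  have hs : MeasurePreserving (MeasurableEquiv.arrowCongr' (Equiv.swap i j) (MeasurableEquiv.refl (E n)))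
      (Measure.pi (fun _ : Fin k => gam n)) (Measure.pi (fun _ : Fin k => gam n)) :=
    measurePreserving_arrowCongr' (fun _ => gam n) (fun _ => gam n) _ _
      (fun _ => MeasurePreserving.id _)
  unfold HH
  rw [← hs.integral_comp (MeasurableEquiv.measurableEmbedding _), ← integral_neg]
  refine integral_congr_ae (Filter.Eventually.of_forall (fun m => ?_))
  simp only
  rw [← hF i j (fun l => act (x l : Matrix (Fin 3) (Fin 3) ℂ) (m l)) hij]
  congr 1

end Pool.Agent.Helper14.EXC
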